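import Mathlib

/-!
# In every Hadamard matrix of order at least 3 some trade is not a symmetric difference of
rectangular trades

The trade comes from permuting three columns cyclically.
-/

namespace Pool.Agent.Results.MP_78a590_co.EveryOrder

open Finset

/-- `H` is a Hadamard matrix. -/
def IsHadamard {n : ℕ} (H : Matrix (Fin n) (Fin n) ℤ) : Prop :=
  (∀ i j, H i j = 1 ∨ H i j = -1) ∧ H * H.transpose = (n : ℤ) • (1 : Matrix (Fin n) (Fin n) ℤ)

/-- `T` is a trade in `H`. -/
def IsTrade {n : ℕ} (H : Matrix (Fin n) (Fin n) ℤ) (T : Finset (Fin n × Fin n)) : Prop :=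
  ∃ H' : Matrix (Fin n) (Fin n) ℤ, IsHadamard H' ∧ H' ≠ H ∧
    ∀ i j, (i, j) ∈ T ↔ H' i j ≠ H i j

/-- `T` is a submatrix. -/
def IsRectangular {n : ℕ} (T : Finset (Fin n × Fin n)) : Prop :=
  ∃ A B : Finset (Fin n), T = A ×ˢ B

variable {n : ℕ}

/-! ### Signs modulo two -/

/-- the exponent of a sign -/
def e (u : ℤ) : ZMod 2 := if u = 1 then 0 else 1

/-- the indicator of a set of positions, modulo two -/
def ind (T : Finset (Fin n × Fin n)) (r c : Fin n) : ZMod 2 := if (r, c) ∈ T then 1 else 0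

lemma ind_eq {H H' : Matrix (Fin n) (Fin n) ℤ} {T : Finset (Fin n × Fin n)}
    (hH : IsHadamard H) (hH' : IsHadamard H') (hT : ∀ i j, (i, j) ∈ T ↔ H' i j ≠ H i j)
    (r c : Fin n) : e (H' r c) = e (H r c) + ind T r c := by
  have h1 := hT r c
  unfold ind
  rcases hH.1 r c with h | h <;> rcases hH'.1 r c with h' | h' <;> rw [h, h'] at h1 <;>
    (simp [h, h', e, h1]; try decide)

lemma row_prod {H : Matrix (Fin n) (Fin n) ℤ} (hH : IsHadamard H) {u v : Fin n} (huv : u ≠ v) :
    ∑ x, H u x * H v x = 0 := by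
  have h := congrFun (congrFun hH.2 u) v
  rw [Matrix.mul_apply] at h
  simpa [Matrix.transpose_apply, huv] using h

lemma count_two {H : Matrix (Fin n) (Fin n) ℤ} (hH : IsHadamard H) {u v : Fin n}
    (huv : u ≠ v) : 2 * (univ.filter (fun x => H u x = H v x)).card = n := by
  have h : ∑ x, (1 + H u x * H v x) = (n : ℤ) := by
    rw [Finset.sum_add_distrib, row_prod hH huv]
    simp
  have h2 : ∑ x, (1 + H u x * H v x) = ∑ x, (if H u x = H v x then (2 : ℤ) else 0) := by
    refine Finset.sum_congr rfl fun x _ => ?_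
    rcases hH.1 u x with h | h <;> rcases hH.1 v x with h' | h' <;> rw [h, h'] <;> norm_num
  rw [h2, ← Finset.sum_filter, Finset.sum_const, nsmul_eq_mul] at h
  have h3 : (((univ.filter (fun x => H u x = H v x)).card * 2 : ℕ) : ℤ) = (n : ℤ) := by
    push_cast
    exact h
  rw [mul_comm]
  exact_mod_cast h3

lemma count_three {H : Matrix (Fin n) (Fin n) ℤ} (hH : IsHadamard H) {i j k : Fin n}
    (hij : i ≠ j) (hik : i ≠ k) (hjk : j ≠ k) :
    4 * (univ.filter (fun x => H i x = H j x ∧ H i x = H k x)).card = n := by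
  have h : ∑ x, (1 + H i x * H j x + H i x * H k x + H j x * H k x) = (n : ℤ) := by
    rw [Finset.sum_add_distrib, Finset.sum_add_distrib, Finset.sum_add_distrib,
      row_prod hH hij, row_prod hH hik, row_prod hH hjk]
    simp
  have h2 : ∑ x, (1 + H i x * H j x + H i x * H k x + H j x * H k x) =
      ∑ x, (if H i x = H j x ∧ H i x = H k x then (4 : ℤ) else 0) := by
    refine Finset.sum_congr rfl fun x _ => ?_
    rcases hH.1 i x with h | h <;> rcases hH.1 j x with h' | h' <;>
      rcases hH.1 k x with h'' | h'' <;> rw [h, h', h''] <;> norm_num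
  rw [h2, ← Finset.sum_filter, Finset.sum_const, nsmul_eq_mul] at h
  have h3 : (((univ.filter (fun x => H i x = H j x ∧ H i x = H k x)).card * 4 : ℕ) : ℤ) =
      (n : ℤ) := by
    push_cast
    exact h
  rw [mul_comm]
  exact_mod_cast h3

/-- the parities of the numbers of traded entries of two rows agree -/
lemma parity_two {H : Matrix (Fin n) (Fin n) ℤ} (hH : IsHadamard H)
    {T : Finset (Fin n × Fin n)} (hT : IsTrade H T) {u v : Fin n} (huv : u ≠ v) :
    ∑ x, ind T u x + ∑ x, ind T v x = 0 := by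
  obtain ⟨H', hH', -, hT⟩ := hT
  have h1 : (univ.filter (fun x => H u x = H v x)).card =
      (univ.filter (fun x => H' u x = H' v x)).card := by
    have := count_two hH huv
    have := count_two hH' huv
    omega
  have key : ∀ (H : Matrix (Fin n) (Fin n) ℤ), IsHadamard H →
      (((univ.filter (fun x => H u x = H v x)).card : ℕ) : ZMod 2) =
        ∑ x, (1 + e (H u x) + e (H v x)) := by
    intro H hH
    rw [Finset.card_filter]
    push_cast
    refine Finset.sum_congr rfl fun x _ => ?_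
    rcases hH.1 u x with h | h <;> rcases hH.1 v x with h' | h' <;> rw [h, h'] <;> decide
  have h2 := key H hH
  have h3 := key H' hH'
  rw [← h1, h2] at h3
  have h4 : ∑ x, (1 + e (H' u x) + e (H' v x)) =
      ∑ x, (1 + e (H u x) + e (H v x)) + (∑ x, ind T u x + ∑ x, ind T v x) := by
    rw [← Finset.sum_add_distrib, ← Finset.sum_add_distrib]
    refine Finset.sum_congr rfl fun x _ => ?_
    rw [ind_eq hH hH' hT, ind_eq hH hH' hT]
    ring
  rw [h4] at h3
  exact left_eq_add.1 h3

/-- the linear functional -/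
def f (H : Matrix (Fin n) (Fin n) ℤ) (i j k : Fin n) (T : Finset (Fin n × Fin n)) : ZMod 2 :=
  ∑ x, (ind T i x * (e (H j x) + e (H k x)) + ind T j x * (1 + e (H i x) + e (H k x)) +
    ind T k x * (1 + e (H i x) + e (H j x)))

/-- its value on trades -/
lemma f_trade {H : Matrix (Fin n) (Fin n) ℤ} (hH : IsHadamard H)
    {T : Finset (Fin n × Fin n)} (hT : IsTrade H T) {i j k : Fin n}
    (hij : i ≠ j) (hik : i ≠ k) (hjk : j ≠ k) :
    f H i j k T = ∑ x, (ind T i x + ind T i x * ind T j x + ind T i x * ind T k x +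
      ind T j x * ind T k x) := by
  obtain ⟨H', hH', -, hT⟩ := hT
  have h1 : (univ.filter (fun x => H i x = H j x ∧ H i x = H k x)).card =
      (univ.filter (fun x => H' i x = H' j x ∧ H' i x = H' k x)).card := by
    have := count_three hH hij hik hjk
    have := count_three hH' hij hik hjk
    omega
  have key : ∀ (H : Matrix (Fin n) (Fin n) ℤ), IsHadamard H →
      (((univ.filter (fun x => H i x = H j x ∧ H i x = H k x)).card : ℕ) : ZMod 2) =
        ∑ x, (1 + e (H i x) + e (H j x)) * (1 + e (H i x) + e (H k x)) := by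
    intro H hH
    rw [Finset.card_filter]
    push_cast
    refine Finset.sum_congr rfl fun x _ => ?_
    rcases hH.1 i x with h | h <;> rcases hH.1 j x with h' | h' <;>
      rcases hH.1 k x with h'' | h'' <;> rw [h, h', h''] <;> decide
  have h2 := key H hH
  have h3 := key H' hH'
  rw [← h1, h2] at h3
  have alg : ∀ a b c α β γ : ZMod 2,
      (1 + (a + α) + (b + β)) * (1 + (a + α) + (c + γ)) =
        (1 + a + b) * (1 + a + c) +
          ((α * (b + c) + β * (1 + a + c) + γ * (1 + a + b)) +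
            (α + α * β + α * γ + β * γ)) := by
    decide
  have h4 : ∑ x, (1 + e (H' i x) + e (H' j x)) * (1 + e (H' i x) + e (H' k x)) =
      ∑ x, (1 + e (H i x) + e (H j x)) * (1 + e (H i x) + e (H k x)) +
        (f H i j k T + ∑ x, (ind T i x + ind T i x * ind T j x + ind T i x * ind T k x +
          ind T j x * ind T k x)) := by
    unfold f
    rw [← Finset.sum_add_distrib, ← Finset.sum_add_distrib]
    refine Finset.sum_congr rfl fun x _ => ?_
    rw [ind_eq hH hH' hT, ind_eq hH hH' hT, ind_eq hH hH' hT]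
    exact alg _ _ _ _ _ _
  rw [h4] at h3
  have h5 := left_eq_add.1 h3
  have h6 : ∀ s t : ZMod 2, s + t = 0 → s = t := by decide
  exact h6 _ _ h5

lemma f_symmDiff (H : Matrix (Fin n) (Fin n) ℤ) (i j k : Fin n)
    (T T' : Finset (Fin n × Fin n)) :
    f H i j k (symmDiff T T') = f H i j k T + f H i j k T' := by
  have h : ∀ r c, ind (symmDiff T T') r c = ind T r c + ind T' r c := by
    intro r c
    unfold ind
    by_cases h1 : (r, c) ∈ T <;> by_cases h2 : (r, c) ∈ T' <;>
      simp [Finset.mem_symmDiff, h1, h2]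
    decide
  unfold f
  rw [← Finset.sum_add_distrib]
  refine Finset.sum_congr rfl fun x _ => ?_
  rw [h, h, h]
  ring

lemma f_empty (H : Matrix (Fin n) (Fin n) ℤ) (i j k : Fin n) : f H i j k ∅ = 0 := by
  simp [f, ind]

/-- the functional vanishes on rectangular trades -/
lemma f_rectangular {H : Matrix (Fin n) (Fin n) ℤ} (hH : IsHadamard H)
    {T : Finset (Fin n × Fin n)} (hT : IsTrade H T) (hR : IsRectangular T) {i j k : Fin n}
    (hij : i ≠ j) (hik : i ≠ k) (hjk : j ≠ k) : f H i j k T = 0 := by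
  rw [f_trade hH hT hij hik hjk]
  have p1 := parity_two hH hT hij
  have p2 := parity_two hH hT hik
  have p3 := parity_two hH hT hjk
  obtain ⟨A, B, rfl⟩ := hR
  have h : ∀ r c : Fin n, ind (A ×ˢ B) r c =
      (if r ∈ A then (1 : ZMod 2) else 0) * (if c ∈ B then (1 : ZMod 2) else 0) := by
    intro r c
    unfold ind
    by_cases h1 : r ∈ A <;> by_cases h2 : c ∈ B <;> simp [h1, h2]
  obtain ⟨s, hs⟩ : ∃ s : ZMod 2, s = ∑ c : Fin n, (if c ∈ B then (1 : ZMod 2) else 0) :=
    ⟨_, rfl⟩
  have hsum : ∀ r : Fin n, ∑ c, ind (A ×ˢ B) r c = (if r ∈ A then (1 : ZMod 2) else 0) * s := by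
    intro r
    rw [hs, Finset.mul_sum]
    exact Finset.sum_congr rfl fun c _ => h r c
  rw [hsum, hsum] at p1 p2 p3
  have hprod : ∀ r r' : Fin n, ∑ c, ind (A ×ˢ B) r c * ind (A ×ˢ B) r' c =
      (if r ∈ A then (1 : ZMod 2) else 0) * (if r' ∈ A then (1 : ZMod 2) else 0) * s := by
    intro r r'
    rw [hs, Finset.mul_sum]
    refine Finset.sum_congr rfl fun c _ => ?_
    rw [h, h]
    by_cases h2 : c ∈ B <;> simp [h2]
  rw [Finset.sum_add_distrib, Finset.sum_add_distrib, Finset.sum_add_distrib, hsum, hprod,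
    hprod, hprod]
  have alg : ∀ p q r s : ZMod 2, p * s + q * s = 0 → p * s + r * s = 0 → q * s + r * s = 0 →
      p * s + p * q * s + p * r * s + q * r * s = 0 := by
    decide
  exact alg _ _ _ _ p1 p2 p3

lemma f_span {H : Matrix (Fin n) (Fin n) ℤ} (hH : IsHadamard H) {i j k : Fin n}
    (hij : i ≠ j) (hik : i ≠ k) (hjk : j ≠ k) (L : List (Finset (Fin n × Fin n)))
    (hL : ∀ R ∈ L, IsTrade H R ∧ IsRectangular R) :
    f H i j k (L.foldr (fun R S => symmDiff R S) ∅) = 0 := by
  induction L with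
  | nil => exact f_empty H i j k
  | cons R L ih =>
    rw [List.foldr_cons, f_symmDiff, ih fun R' hR' => hL R' (List.mem_cons_of_mem _ hR'),
      f_rectangular hH (hL R List.mem_cons_self).1 (hL R List.mem_cons_self).2 hij hik hjk,
      add_zero]

/-! ### Columns -/

lemma transpose_hadamard {H : Matrix (Fin n) (Fin n) ℤ} (hn : 0 < n) (hH : IsHadamard H) :
    H.transpose * H = (n : ℤ) • (1 : Matrix (Fin n) (Fin n) ℤ) := by
  have hn' : (n : ℚ) ≠ 0 := by exact_mod_cast hn.ne'
  have h1 : (H.map (Int.cast : ℤ → ℚ)) * (H.transpose.map (Int.cast : ℤ → ℚ)) =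
      (n : ℚ) • (1 : Matrix (Fin n) (Fin n) ℚ) := by
    have h2 := congrArg (fun M : Matrix (Fin n) (Fin n) ℤ => M.map (Int.castRingHom ℚ)) hH.2
    simp only [Matrix.map_mul] at h2
    have h3 : (((n : ℤ) • (1 : Matrix (Fin n) (Fin n) ℤ)).map (Int.castRingHom ℚ)) =
        (n : ℚ) • (1 : Matrix (Fin n) (Fin n) ℚ) := by
      ext i j
      rw [Matrix.map_apply, Matrix.smul_apply, Matrix.smul_apply, Matrix.one_apply,
        Matrix.one_apply]
      split_ifs <;> simp
    rw [h3] at h2
    exact h2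
  have h4 : (H.map (Int.cast : ℤ → ℚ)) * ((n : ℚ)⁻¹ • (H.transpose.map (Int.cast : ℤ → ℚ))) =
      1 := by
    rw [Matrix.mul_smul, h1, smul_smul, inv_mul_cancel₀ hn', one_smul]
  have h5 := mul_eq_one_comm.1 h4
  rw [Matrix.smul_mul] at h5
  have h6 : (H.transpose.map (Int.cast : ℤ → ℚ)) * (H.map (Int.cast : ℤ → ℚ)) =
      (n : ℚ) • (1 : Matrix (Fin n) (Fin n) ℚ) := by
    rw [← h5, smul_smul, mul_inv_cancel₀ hn', one_smul]
  ext i j
  have h7 := congrFun (congrFun h6 i) j
  rw [Matrix.mul_apply] at h7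
  rw [Matrix.mul_apply]
  simp only [Matrix.map_apply, Matrix.smul_apply, smul_eq_mul] at h7 ⊢
  have h8 : ((∑ x, H.transpose i x * H x j : ℤ) : ℚ) =
      (((n : ℤ) * (1 : Matrix (Fin n) (Fin n) ℤ) i j : ℤ) : ℚ) := by
    push_cast
    rw [h7]
    by_cases hij : i = j
    · subst hij; simp
    · simp [hij]
  exact_mod_cast h8

lemma col_prod {H : Matrix (Fin n) (Fin n) ℤ} (hH : IsHadamard H) {x y : Fin n} (hxy : x ≠ y) :
    ∑ r, H r x * H r y = 0 := by
  have h := congrFun (congrFun (transpose_hadamard (Nat.lt_of_le_of_lt (Nat.zero_le _) x.2) hH)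
    x) y
  rw [Matrix.mul_apply] at h
  simpa [Matrix.transpose_apply, hxy] using h

/-- every sign pattern (up to a common sign) occurs in any three columns -/
lemma pattern {H : Matrix (Fin n) (Fin n) ℤ} (hH : IsHadamard H) {x y z : Fin n}
    (hxy : x ≠ y) (hxz : x ≠ z) (hyz : y ≠ z) (s t : ℤ) (hs : s = 1 ∨ s = -1)
    (ht : t = 1 ∨ t = -1) : ∃ r, H r y = s * H r x ∧ H r z = t * H r x := by
  by_contra hcon
  push Not at hcon
  have h1 : ∑ r, (1 + s * (H r x * H r y) + t * (H r x * H r z) + s * t * (H r y * H r z)) =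
      (n : ℤ) := by
    rw [Finset.sum_add_distrib, Finset.sum_add_distrib, Finset.sum_add_distrib,
      ← Finset.mul_sum, ← Finset.mul_sum, ← Finset.mul_sum, col_prod hH hxy, col_prod hH hxz,
      col_prod hH hyz]
    simp
  have h2 : ∑ r, (1 + s * (H r x * H r y) + t * (H r x * H r z) + s * t * (H r y * H r z)) =
      0 := by
    refine Finset.sum_eq_zero fun r _ => ?_
    have h3 := hcon r
    rcases hH.1 r x with h | h <;> rcases hH.1 r y with h' | h' <;>
      rcases hH.1 r z with h'' | h'' <;> rcases hs with rfl | rfl <;>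
      rcases ht with rfl | rfl <;> rw [h, h', h''] at h3 <;> rw [h, h', h''] <;>
      revert h3 <;> norm_num
  rw [h2] at h1
  have h4 : 0 < n := Nat.lt_of_le_of_lt (Nat.zero_le _) x.2
  omega

/-- the main construction -/
theorem main (hn : 3 ≤ n) (H : Matrix (Fin n) (Fin n) ℤ) (hH : IsHadamard H) :
    ∃ T, IsTrade H T ∧ ¬ ∃ L : List (Finset (Fin n × Fin n)),
      (∀ R ∈ L, IsTrade H R ∧ IsRectangular R) ∧
        T = L.foldr (fun R S => symmDiff R S) ∅ := by
  obtain ⟨x, y, z, hxy, hxz, hyz⟩ : ∃ x y z : Fin n, x ≠ y ∧ x ≠ z ∧ y ≠ z :=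
    ⟨⟨0, by omega⟩, ⟨1, by omega⟩, ⟨2, by omega⟩, by simp, by simp, by simp⟩
  obtain ⟨i, hi1, hi2⟩ := pattern hH hxy hxz hyz (-1) (-1) (Or.inr rfl) (Or.inr rfl)
  obtain ⟨j, hj1, hj2⟩ := pattern hH hxy hxz hyz (-1) 1 (Or.inr rfl) (Or.inl rfl)
  obtain ⟨k, hk1, hk2⟩ := pattern hH hxy hxz hyz 1 1 (Or.inl rfl) (Or.inl rfl)
  have nz : ∀ r c, H r c ≠ 0 := by
    intro r c h0
    rcases hH.1 r c with h | h <;> rw [h0] at h <;> norm_num at h
  have hij : i ≠ j := by
    rintro rfl
    rw [hi2] at hj2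
    have := nz i x
    omega
  have hik : i ≠ k := by
    rintro rfl
    rw [hi1] at hk1
    have := nz i x
    omega
  have hjk : j ≠ k := by
    rintro rfl
    rw [hj1] at hk1
    have := nz j x
    omega
  obtain ⟨σ, hσ⟩ : ∃ σ : Equiv.Perm (Fin n), σ = Equiv.swap x y * Equiv.swap y z := ⟨_, rfl⟩
  have sx : σ x = y := by
    rw [hσ, Equiv.Perm.mul_apply, Equiv.swap_apply_of_ne_of_ne hxy hxz, Equiv.swap_apply_left]
  have sy : σ y = z := by
    rw [hσ, Equiv.Perm.mul_apply, Equiv.swap_apply_left,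
      Equiv.swap_apply_of_ne_of_ne hxz.symm hyz.symm]
  have sz : σ z = x := by
    rw [hσ, Equiv.Perm.mul_apply, Equiv.swap_apply_right, Equiv.swap_apply_right]
  have sc : ∀ c, c ≠ x → c ≠ y → c ≠ z → σ c = c := by
    intro c h1 h2 h3
    rw [hσ, Equiv.Perm.mul_apply, Equiv.swap_apply_of_ne_of_ne h2 h3,
      Equiv.swap_apply_of_ne_of_ne h1 h2]
  let H' : Matrix (Fin n) (Fin n) ℤ := fun r c => H r (σ c)
  have hH' : IsHadamard H' := by
    refine ⟨fun r c => hH.1 r (σ c), ?_⟩
    rw [← hH.2]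
    ext r s
    rw [Matrix.mul_apply, Matrix.mul_apply]
    exact Equiv.sum_comp σ (fun c => H r c * H.transpose c s)
  let T : Finset (Fin n × Fin n) := univ.filter (fun p => H' p.1 p.2 ≠ H p.1 p.2)
  have hTmem : ∀ r c, (r, c) ∈ T ↔ H (r) (σ c) ≠ H r c := by
    intro r c
    simp [T, H']
  have hT : IsTrade H T := by
    refine ⟨H', hH', ?_, hTmem⟩
    intro h
    have h1 : H' i x = H i x := by rw [h]
    have h2 : H i y = H i x := by
      have : H' i x = H i (σ x) := rfl
      rwa [this, sx] at h1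
    rw [hi1] at h2
    have := nz i x
    omega
  refine ⟨T, hT, ?_⟩
  rintro ⟨L, hL, hTL⟩
  have h0 := f_span hH hij hik hjk L hL
  rw [← hTL, f_trade hH hT hij hik hjk] at h0
  have i1 : ind T i x = 1 := by
    have : (i, x) ∈ T := by
      rw [hTmem, sx, hi1]; have := nz i x; omega
    simp [ind, this]
  have i2 : ind T i y = 0 := by
    have : ¬ (i, y) ∈ T := by
      rw [hTmem, sy, hi1, hi2]; simp
    simp [ind, this]
  have i3 : ind T i z = 1 := by
    have : (i, z) ∈ T := by
      rw [hTmem, sz, hi2]; have := nz i x; omega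
    simp [ind, this]
  have j1 : ind T j x = 1 := by
    have : (j, x) ∈ T := by
      rw [hTmem, sx, hj1]; have := nz j x; omega
    simp [ind, this]
  have j2 : ind T j y = 1 := by
    have : (j, y) ∈ T := by
      rw [hTmem, sy, hj1, hj2]; have := nz j x; omega
    simp [ind, this]
  have j3 : ind T j z = 0 := by
    have : ¬ (j, z) ∈ T := by
      rw [hTmem, sz, hj2]; simp
    simp [ind, this]
  have k1 : ind T k x = 0 := by
    have : ¬ (k, x) ∈ T := by
      rw [hTmem, sx, hk1]; simp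
    simp [ind, this]
  have k2 : ind T k y = 0 := by
    have : ¬ (k, y) ∈ T := by
      rw [hTmem, sy, hk1, hk2]; simp
    simp [ind, this]
  have k3 : ind T k z = 0 := by
    have : ¬ (k, z) ∈ T := by
      rw [hTmem, sz, hk2]; simp
    simp [ind, this]
  have h3 : ∑ c ∈ ({x, y, z} : Finset (Fin n)), (ind T i c + ind T i c * ind T j c +
      ind T i c * ind T k c + ind T j c * ind T k c) =
      ∑ c, (ind T i c + ind T i c * ind T j c + ind T i c * ind T k c +
        ind T j c * ind T k c) := by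
    apply Finset.sum_subset (Finset.subset_univ _)
    intro c _ hc
    simp only [Finset.mem_insert, Finset.mem_singleton, not_or] at hc
    have : ∀ r, ind T r c = 0 := by
      intro r
      have : ¬ (r, c) ∈ T := by
        rw [hTmem, sc c hc.1 hc.2.1 hc.2.2]; simp
      simp [ind, this]
    rw [this, this, this]
    ring
  rw [← h3, Finset.sum_insert (by simp [hxy, hxz]), Finset.sum_insert (by simp [hyz]),
    Finset.sum_singleton, i1, i2, i3, j1, j2, j3, k1, k2, k3] at h0
  revert h0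
  decide

/-- a Hadamard matrix of order four -/
def H₄ : Matrix (Fin 4) (Fin 4) ℤ :=
  !![1, 1, 1, 1; 1, -1, 1, -1; 1, 1, -1, -1; 1, -1, -1, 1]

theorem isHadamard₄ : IsHadamard H₄ := by
  refine ⟨fun i j => ?_, ?_⟩
  · fin_cases i <;> fin_cases j <;> simp [H₄]
  · ext i j
    fin_cases i <;> fin_cases j <;>
      simp [H₄, Matrix.mul_apply, Fin.sum_univ_four]

theorem result : (∃ H : Matrix (Fin 4) (Fin 4) ℤ, IsHadamard H) ∧
    ∀ n : ℕ, 3 ≤ n → ∀ H : Matrix (Fin n) (Fin n) ℤ, IsHadamard H →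
      ∃ T, IsTrade H T ∧ ¬ ∃ L : List (Finset (Fin n × Fin n)),
        (∀ R ∈ L, IsTrade H R ∧ IsRectangular R) ∧
          T = L.foldr (fun R S => symmDiff R S) ∅ :=
  ⟨⟨H₄, isHadamard₄⟩, fun _ hn H hH => main hn H hH⟩

end Pool.Agent.Results.MP_78a590_co.EveryOrder
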